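import Mathlib
import Pool.Agent.H170.LatinFree

/-!
# Transversal-free entries of latin squares whose order has a divisor other than 1 and 3

For every positive integer `n` and every divisor `d` of `n` with `d ≠ 1`, `d ≠ 3` there is a latin
square of order `n` at least `(n / d) ^ 2` of whose entries lie in no transversal.

For odd `n = d * m` (so `d ≥ 5` is odd) the square is the table of `ZMod d × ZMod m` in which the
`m × m` subsquare on the cells with first coordinates `(0, 0)` is shifted by one in the second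
coordinate and in which the three rows `(0,0), (1,0), (2,0)` are rearranged.
-/

set_option autoImplicit false

namespace Pool.Agent.Results.MP_cd749c_co.DivisorFreeEntries

open Pool.Agent.H170.LatinFree

/-- cyclic table of even order has no transversal -/
theorem even_free {n : ℕ} (hn : 0 < n) (he : n % 2 = 0) (σ : Equiv.Perm (Fin n))
    (hσ : Function.Injective (fun i : Fin n => (i + σ i : Fin n))) : False := by
  have hb : Function.Bijective (fun i : Fin n => (i + σ i : Fin n)) :=
    Finite.injective_iff_bijective.1 hσ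
  have e1 : ∑ i : Fin n, (((i + σ i : Fin n) : ℕ) : ZMod n) = ∑ i : Fin n, ((i : ℕ) : ZMod n) :=
    (Equiv.ofBijective _ hb).sum_comp (fun y : Fin n => ((y : ℕ) : ZMod n))
  have e2 : ∑ i : Fin n, (((σ i : Fin n) : ℕ) : ZMod n) = ∑ i : Fin n, ((i : ℕ) : ZMod n) :=
    Equiv.sum_comp σ (fun y : Fin n => ((y : ℕ) : ZMod n))
  have e3 : ∀ i : Fin n, (((i + σ i : Fin n) : ℕ) : ZMod n)
      = ((i : ℕ) : ZMod n) + (((σ i : Fin n) : ℕ) : ZMod n) := by
    intro i
    rw [Fin.val_add, ZMod.natCast_mod]
    push_cast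
    rfl
  have e4 : ∑ i : Fin n, ((i : ℕ) : ZMod n) = 0 := by
    have : ∑ i : Fin n, (((i + σ i : Fin n) : ℕ) : ZMod n)
        = ∑ i : Fin n, ((i : ℕ) : ZMod n) + ∑ i : Fin n, (((σ i : Fin n) : ℕ) : ZMod n) := by
      rw [← Finset.sum_add_distrib]
      exact Finset.sum_congr rfl (fun i _ => e3 i)
    rw [e1, e2] at this
    exact left_eq_add.1 this
  have h1 : ∑ c : Fin n, ((c : ℕ) : ZMod n) = ((∑ c ∈ Finset.range n, c : ℕ) : ZMod n) := by
    rw [Nat.cast_sum, ← Fin.sum_univ_eq_sum_range (fun c => ((c : ℕ) : ZMod n)) n]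
  rw [h1, ZMod.natCast_eq_zero_iff] at e4
  have h2 := Finset.sum_range_id_mul_two n
  obtain ⟨k, hk⟩ : ∃ k, n = 2 * k := ⟨n / 2, by omega⟩
  obtain ⟨q, hq⟩ := e4
  rw [hq] at h2
  have h3 : q * 2 = n - 1 := by
    have : n * (q * 2) = n * (n - 1) := by rw [← h2]; ring
    exact Nat.eq_of_mul_eq_mul_left hn this
  omega

theorem result : ∀ n d : ℕ, 0 < n → d ∣ n → d ≠ 1 → d ≠ 3 →
    ∃ L : Fin n → Fin n → Fin n,
      (∀ i : Fin n, Function.Injective (L i)) ∧
      (∀ j : Fin n, Function.Injective (fun i : Fin n => L i j)) ∧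
      (n / d) ^ 2 ≤
        ({p : Fin n × Fin n |
            ¬ ∃ σ : Equiv.Perm (Fin n),
                Function.Injective (fun i : Fin n => L i (σ i)) ∧ σ p.1 = p.2}.ncard) := by
  intro n d hn hd h1 h3
  have hd0 : 0 < d := Nat.pos_of_dvd_of_pos hd hn
  rcases Nat.mod_two_eq_zero_or_one n with he | ho
  · -- even order
    haveI : NeZero n := ⟨by omega⟩
    refine ⟨fun i j => i + j, fun i a b h => add_left_cancel h,
      fun j a b h => add_right_cancel h, ?_⟩
    have hset : {p : Fin n × Fin n | ¬ ∃ σ : Equiv.Perm (Fin n),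
        Function.Injective (fun i : Fin n => (i + σ i : Fin n)) ∧ σ p.1 = p.2} = Set.univ := by
      ext p
      simp only [Set.mem_setOf_eq, Set.mem_univ, iff_true]
      rintro ⟨σ, hσ, -⟩
      exact even_free hn he σ hσ
    rw [hset, Set.ncard_univ]
    simp only [Nat.card_eq_fintype_card, Fintype.card_prod, Fintype.card_fin]
    rw [← sq]
    exact Nat.pow_le_pow_left (Nat.div_le_self n d) 2
  · obtain ⟨m, hm⟩ := hd
    have hd5 : 5 ≤ d := by
      by_contra hlt
      have h2 : d ≠ 2 := by rintro rfl; omega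
      have h4 : d ≠ 4 := by rintro rfl; omega
      omega
    have hodd : d % 2 = 1 := by
      rcases Nat.mod_two_eq_zero_or_one d with h | h
      · exfalso
        have : (d * m) % 2 = 0 := by rw [Nat.mul_mod, h]; simp
        omega
      · exact h
    have hmodd : m % 2 = 1 := by
      rcases Nat.mod_two_eq_zero_or_one m with h | h
      · exfalso
        have : (d * m) % 2 = 0 := by rw [Nat.mul_mod, h]; simp
        omega
      · exact h
    subst hm
    have hdiv : d * m / d = m := Nat.mul_div_cancel_left m hd0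
    rw [hdiv]
    obtain ⟨hL, hF⟩ := transport (finProdFinEquiv (m := d) (n := m)) (Sq (m := m) hd5 hodd)
      (Sq_latin hd5 hodd)
    refine ⟨_, hL.1, hL.2, ?_⟩
    change m ^ 2 ≤ (Free (fun i j : Fin (d * m) => finProdFinEquiv (m := d) (n := m)
      (Sq (m := m) hd5 hodd (finProdFinEquiv.symm i) (finProdFinEquiv.symm j)))).ncard
    rw [hF, Set.ncard_image_of_injective _
      (Function.Injective.prodMap finProdFinEquiv.injective finProdFinEquiv.injective)]
    -- the block of cells with first coordinates zero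
    let emb : Fin m × Fin m → (Fin d × Fin m) × (Fin d × Fin m) :=
      fun q => ((⟨0, hd0⟩, q.1), (⟨0, hd0⟩, q.2))
    have hemb : Function.Injective emb := by
      rintro ⟨a, b⟩ ⟨a', b'⟩ h
      simp only [emb, Prod.mk.injEq, true_and] at h
      exact Prod.ext h.1 h.2
    have hsub : Set.range emb ⊆ Free (Sq (m := m) hd5 hodd) := by
      rintro _ ⟨q, rfl⟩
      rintro ⟨σ, hσ, hq⟩
      have := Sq_free hd5 hodd hmodd σ hσ (⟨0, hd0⟩, q.1) rfl
      apply this
      simp only [emb] at hq
      rw [hq]
    calc m ^ 2 = (Set.range emb).ncard := by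
          rw [← Set.image_univ, Set.ncard_image_of_injective _ hemb, Set.ncard_univ]
          simp only [Nat.card_eq_fintype_card, Fintype.card_prod, Fintype.card_fin]
          ring
      _ ≤ _ := Set.ncard_le_ncard hsub (Set.toFinite _)

end Pool.Agent.Results.MP_cd749c_co.DivisorFreeEntries
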