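import Mathlib

/-!
# Every odd order: a quarter of the entries reachable by transversals only through one entry

For every odd `n = 2 * k - 1 ≥ 3` there is a latin square of order `n`, an entry `e` and two
disjoint sets `Ω`, `W` of `k * (k - 1) = (n ^ 2 - 1) / 4` cells each such that every transversal
either contains exactly `k - 1` cells of `W` and no cell of `Ω`, or contains `e`, exactly `k` cells
of `Ω` and no cell of `W`.
-/

set_option autoImplicit false

namespace Pool.Agent.Results.MP_cd749c_co.OneEntryQuarter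

/-- class of a row, column or symbol -/
def cls (i : ℕ) : ℕ := (i + 1) / 2

/-- cells of the first kind (symbol class is the sum of the classes minus `k - 1`) -/
def isX (k i j : ℕ) : Prop :=
  k ≤ cls i + cls j ∧ (i + 1 + (j + 1) + cls j + k + 1) % 2 = 0

/-- cells of the second kind (symbol class is the sum of the classes minus `k`) -/
def isW (k i j : ℕ) : Prop :=
  k ≤ cls i + cls j ∧ (i + 1 + (j + 1) + cls j + k + 1) % 2 = 1

instance (k i j : ℕ) : Decidable (isX k i j) := by unfold isX; infer_instance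
instance (k i j : ℕ) : Decidable (isW k i j) := by unfold isW; infer_instance

/-- the table -/
def tab (k i j : ℕ) : ℕ :=
  if i = 0 then j
  else if j = 0 then i
  else if cls i + cls j < k then 2 * (cls i + cls j) - 1 + (i + j) % 2
  else if (i + 1 + (j + 1) + cls j + k + 1) % 2 = 0 then
    2 * (cls i + cls j - k + 1) - 1 + j % 2
  else if cls i + cls j = k then 0
  else 2 * (cls i + cls j - k) - 1 + (j + 1) % 2

theorem tab_lt {k i j : ℕ} (hk : 2 ≤ k) (hi : i < 2 * k - 1) (hj : j < 2 * k - 1) :
    tab k i j < 2 * k - 1 := by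
  unfold tab cls
  split_ifs <;> omega

theorem tab_row {k i j l : ℕ} (hk : 2 ≤ k) (hi : i < 2 * k - 1) (hj : j < 2 * k - 1)
    (hl : l < 2 * k - 1) (h : tab k i j = tab k i l) : j = l := by
  unfold tab cls at h
  split_ifs at h <;> first
    | omega
    | (obtain ⟨r, hr⟩ : ∃ r, r = (i + 1) / 2 := ⟨_, rfl⟩
       obtain ⟨s, hs⟩ : ∃ s, s = (j + 1) / 2 := ⟨_, rfl⟩
       obtain ⟨t, ht⟩ : ∃ t, t = (l + 1) / 2 := ⟨_, rfl⟩
       rcases Nat.mod_two_eq_zero_or_one i with ei | ei <;>
       rcases Nat.mod_two_eq_zero_or_one j with ej | ej <;>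
       rcases Nat.mod_two_eq_zero_or_one l with el | el <;>
       rw [← hr] at * <;> (try rw [← hs] at *) <;> (try rw [← ht] at *) <;> omega)

theorem tab_col {k i j l : ℕ} (hk : 2 ≤ k) (hi : i < 2 * k - 1) (hj : j < 2 * k - 1)
    (hl : l < 2 * k - 1) (h : tab k i j = tab k l j) : i = l := by
  unfold tab cls at h
  split_ifs at h <;> omega

theorem tab_cls {k i j : ℕ} (hk : 2 ≤ k) (hi : i < 2 * k - 1) (hj : j < 2 * k - 1) :
    cls (tab k i j) + k * (if isW k i j then 1 else 0) + (k - 1) * (if isX k i j then 1 else 0)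
      = cls i + cls j := by
  by_cases h1 : k ≤ cls i + cls j
  · have hi0 : i ≠ 0 := by rintro rfl; unfold cls at h1; omega
    have hj0 : j ≠ 0 := by rintro rfl; unfold cls at h1; omega
    have e : tab k i j = if (i + 1 + (j + 1) + cls j + k + 1) % 2 = 0 then
        2 * (cls i + cls j - k + 1) - 1 + j % 2
        else if cls i + cls j = k then 0 else 2 * (cls i + cls j - k) - 1 + (j + 1) % 2 := by
      unfold tab
      rw [if_neg hi0, if_neg hj0, if_neg (by omega)]
    rw [e]
    rcases Nat.mod_two_eq_zero_or_one (i + 1 + (j + 1) + cls j + k + 1) with h2 | h2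
    · have hX : isX k i j := ⟨h1, h2⟩
      have hW : ¬ isW k i j := fun h => by have := h.2; omega
      rw [if_pos h2, if_neg hW, if_pos hX]
      generalize cls i + cls j = s at *
      unfold cls
      omega
    · have hX : ¬ isX k i j := fun h => by have := h.2; omega
      have hW : isW k i j := ⟨h1, h2⟩
      rw [if_neg (by omega), if_pos hW, if_neg hX]
      generalize cls i + cls j = s at *
      unfold cls
      split_ifs <;> omega
  · have hX : ¬ isX k i j := fun h => h1 h.1
    have hW : ¬ isW k i j := fun h => h1 h.1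
    rw [if_neg hW, if_neg hX]
    unfold tab cls
    unfold cls at h1
    split_ifs <;> omega

theorem sum_cls (K : ℕ) : ∑ i ∈ Finset.range (2 * K + 1), cls i = (K + 1) * K := by
  induction K with
  | zero => simp [cls]
  | succ K ih =>
    have : 2 * (K + 1) + 1 = (2 * K + 1) + 1 + 1 := by ring
    rw [this, Finset.sum_range_succ, Finset.sum_range_succ, ih]
    have h1 : cls (2 * K + 1) = K + 1 := by unfold cls; omega
    have h2 : cls (2 * K + 1 + 1) = K + 1 := by unfold cls; omega
    rw [h1, h2]; ring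

theorem row_X {k i : ℕ} (hi : cls i < k) (K : ℕ) :
    ∑ j ∈ Finset.range (2 * K + 1), (if isX k i j then 1 else 0) = K + cls i + 1 - k := by
  induction K with
  | zero =>
    have : ¬ isX k i 0 := by
      rintro ⟨h, -⟩
      have : cls 0 = 0 := rfl
      omega
    rw [show 2 * 0 + 1 = 1 from rfl, Finset.sum_range_one, if_neg this]
    omega
  | succ K ih =>
    have : 2 * (K + 1) + 1 = (2 * K + 1) + 1 + 1 := by ring
    rw [this, Finset.sum_range_succ, Finset.sum_range_succ, ih]
    have h1 : cls (2 * K + 1) = K + 1 := by unfold cls; omega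
    have h2 : cls (2 * K + 1 + 1) = K + 1 := by unfold cls; omega
    have a1 : isX k i (2 * K + 1) ↔
        (k ≤ cls i + (K + 1) ∧ (i + 1 + (2 * K + 1 + 1) + (K + 1) + k + 1) % 2 = 0) := by
      unfold isX; rw [h1]
    have a2 : isX k i (2 * K + 1 + 1) ↔
        (k ≤ cls i + (K + 1) ∧ (i + 1 + (2 * K + 1 + 1 + 1) + (K + 1) + k + 1) % 2 = 0) := by
      unfold isX; rw [h2]
    by_cases c1 : isX k i (2 * K + 1) <;> by_cases c2 : isX k i (2 * K + 1 + 1)
    · rw [if_pos c1, if_pos c2]; rw [a1] at c1; rw [a2] at c2; omega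
    · rw [if_pos c1, if_neg c2]; rw [a1] at c1; rw [a2] at c2; omega
    · rw [if_neg c1, if_pos c2]; rw [a1] at c1; rw [a2] at c2; omega
    · rw [if_neg c1, if_neg c2]; rw [a1] at c1; rw [a2] at c2; omega

theorem row_W {k i : ℕ} (hi : cls i < k) (K : ℕ) :
    ∑ j ∈ Finset.range (2 * K + 1), (if isW k i j then 1 else 0) = K + cls i + 1 - k := by
  induction K with
  | zero =>
    have : ¬ isW k i 0 := by
      rintro ⟨h, -⟩
      have : cls 0 = 0 := rfl
      omega
    rw [show 2 * 0 + 1 = 1 from rfl, Finset.sum_range_one, if_neg this]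
    omega
  | succ K ih =>
    have : 2 * (K + 1) + 1 = (2 * K + 1) + 1 + 1 := by ring
    rw [this, Finset.sum_range_succ, Finset.sum_range_succ, ih]
    have h1 : cls (2 * K + 1) = K + 1 := by unfold cls; omega
    have h2 : cls (2 * K + 1 + 1) = K + 1 := by unfold cls; omega
    have a1 : isW k i (2 * K + 1) ↔
        (k ≤ cls i + (K + 1) ∧ (i + 1 + (2 * K + 1 + 1) + (K + 1) + k + 1) % 2 = 1) := by
      unfold isW; rw [h1]
    have a2 : isW k i (2 * K + 1 + 1) ↔
        (k ≤ cls i + (K + 1) ∧ (i + 1 + (2 * K + 1 + 1 + 1) + (K + 1) + k + 1) % 2 = 1) := by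
      unfold isW; rw [h2]
    by_cases c1 : isW k i (2 * K + 1) <;> by_cases c2 : isW k i (2 * K + 1 + 1)
    · rw [if_pos c1, if_pos c2]; rw [a1] at c1; rw [a2] at c2; omega
    · rw [if_pos c1, if_neg c2]; rw [a1] at c1; rw [a2] at c2; omega
    · rw [if_neg c1, if_pos c2]; rw [a1] at c1; rw [a2] at c2; omega
    · rw [if_neg c1, if_neg c2]; rw [a1] at c1; rw [a2] at c2; omega

theorem tab_zero {k i j : ℕ} (hj : j < 2 * k - 1) (h : tab k i j = 0)
    (hW : ¬ isW k i j) : i = 0 ∧ j = 0 := by
  by_cases hi0 : i = 0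
  · refine ⟨hi0, ?_⟩
    unfold tab at h
    rwa [if_pos hi0] at h
  · exfalso
    by_cases hj0 : j = 0
    · unfold tab at h
      rw [if_neg hi0, if_pos hj0] at h
      exact hi0 h
    · unfold tab at h
      rw [if_neg hi0, if_neg hj0] at h
      have hi1 : 1 ≤ cls i := by unfold cls; omega
      split_ifs at h with h1 h2 h3
      · omega
      · omega
      · exact hW ⟨by omega, by omega⟩
      · omega

theorem result : ∀ n : ℕ, Odd n → 3 ≤ n →
    ∃ (L : Fin n → Fin n → Fin n) (e : Fin n × Fin n) (Ω W : Finset (Fin n × Fin n)),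
      (∀ i : Fin n, Function.Injective (L i)) ∧
      (∀ j : Fin n, Function.Injective (fun i : Fin n => L i j)) ∧
      Ω.card = (n ^ 2 - 1) / 4 ∧ W.card = (n ^ 2 - 1) / 4 ∧ Disjoint Ω W ∧ e ∉ Ω ∧ e ∉ W ∧
      ∀ σ : Equiv.Perm (Fin n), Function.Injective (fun i : Fin n => L i (σ i)) →
        ((Finset.univ.filter (fun i : Fin n => (i, σ i) ∈ Ω)).card = 0 ∧
          (Finset.univ.filter (fun i : Fin n => (i, σ i) ∈ W)).card = (n - 1) / 2) ∨
        (σ e.1 = e.2 ∧ (Finset.univ.filter (fun i : Fin n => (i, σ i) ∈ Ω)).card = (n + 1) / 2 ∧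
          (Finset.univ.filter (fun i : Fin n => (i, σ i) ∈ W)).card = 0) := by
  intro n hodd hn
  obtain ⟨K, rfl⟩ := hodd
  have hK : 1 ≤ K := by omega
  obtain ⟨k, hk⟩ : ∃ k, k = K + 1 := ⟨_, rfl⟩
  have hk2 : 2 ≤ k := by omega
  have hlt : ∀ i : Fin (2 * K + 1), (i : ℕ) < 2 * k - 1 := fun i => by have := i.2; omega
  have hcls : ∀ i : Fin (2 * K + 1), cls i < k := fun i => by
    have := i.2; unfold cls; omega
  have hsq : ((2 * K + 1) ^ 2 - 1) / 4 = (K + 1) * K := by
    have : (2 * K + 1) ^ 2 - 1 = 4 * ((K + 1) * K) := by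
      have : (2 * K + 1) ^ 2 = 4 * ((K + 1) * K) + 1 := by ring
      omega
    rw [this]; omega
  have hS : ∑ i : Fin (2 * K + 1), cls i = (K + 1) * K := by
    rw [Fin.sum_univ_eq_sum_range (fun i => cls i) (2 * K + 1)]
    exact sum_cls K
  refine ⟨fun i j => ⟨tab k i j, by have := tab_lt hk2 (hlt i) (hlt j); omega⟩,
    (⟨0, by omega⟩, ⟨0, by omega⟩),
    Finset.univ.filter (fun q => isX k q.1 q.2), Finset.univ.filter (fun q => isW k q.1 q.2),
    ?_, ?_, ?_, ?_, ?_, ?_, ?_, ?_⟩
  · intro i a b h
    simp only [Fin.mk.injEq] at h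
    exact Fin.ext (tab_row hk2 (hlt i) (hlt a) (hlt b) h)
  · intro j a b h
    simp only [Fin.mk.injEq] at h
    exact Fin.ext (tab_col hk2 (hlt a) (hlt j) (hlt b) h)
  · rw [hsq, Finset.card_filter, Fintype.sum_prod_type, ← hS]
    refine Finset.sum_congr rfl (fun i _ => ?_)
    rw [Fin.sum_univ_eq_sum_range (fun j => if isX k i j then 1 else 0) (2 * K + 1),
      row_X (hcls i) K]
    have := hcls i
    omega
  · rw [hsq, Finset.card_filter, Fintype.sum_prod_type, ← hS]
    refine Finset.sum_congr rfl (fun i _ => ?_)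
    rw [Fin.sum_univ_eq_sum_range (fun j => if isW k i j then 1 else 0) (2 * K + 1),
      row_W (hcls i) K]
    have := hcls i
    omega
  · rw [Finset.disjoint_left]
    intro q hq1 hq2
    rw [Finset.mem_filter] at hq1 hq2
    have h1 := hq1.2.2
    have h2 := hq2.2.2
    omega
  · rw [Finset.mem_filter]
    rintro ⟨-, h, -⟩
    simp only [cls] at h
    omega
  · rw [Finset.mem_filter]
    rintro ⟨-, h, -⟩
    simp only [cls] at h
    omega
  · intro σ hσ
    simp only [Finset.mem_filter, Finset.mem_univ, true_and]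
    set τ : Fin (2 * K + 1) → Fin (2 * K + 1) := fun i =>
      ⟨tab k i (σ i), by have := tab_lt hk2 (hlt i) (hlt (σ i)); omega⟩ with hτ
    have hτb : Function.Bijective τ := Finite.injective_iff_bijective.1 hσ
    have e1 : ∑ i, cls (τ i) = (K + 1) * K := by
      rw [← hS]
      exact (Equiv.ofBijective τ hτb).sum_comp (fun i : Fin (2 * K + 1) => cls i)
    have e2 : ∑ i, cls (σ i) = (K + 1) * K := by
      rw [← hS]
      exact Equiv.sum_comp σ (fun i : Fin (2 * K + 1) => cls i)
    set X := (Finset.univ.filter (fun i : Fin (2 * K + 1) => isX k i (σ i))).card with hX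
    set V := (Finset.univ.filter (fun i : Fin (2 * K + 1) => isW k i (σ i))).card with hV
    have e3 : (K + 1) * K + k * V + (k - 1) * X = (K + 1) * K + (K + 1) * K := by
      calc (K + 1) * K + k * V + (k - 1) * X
          = ∑ i, (cls (τ i) + k * (if isW k i (σ i) then 1 else 0)
              + (k - 1) * (if isX k i (σ i) then 1 else 0)) := by
            rw [Finset.sum_add_distrib, Finset.sum_add_distrib, e1, ← Finset.mul_sum,
              ← Finset.mul_sum, hX, hV, Finset.card_filter, Finset.card_filter]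
        _ = ∑ i : Fin (2 * K + 1), (cls i + cls (σ i)) :=
            Finset.sum_congr rfl (fun i _ => tab_cls hk2 (hlt i) (hlt (σ i)))
        _ = (K + 1) * K + (K + 1) * K := by
            rw [Finset.sum_add_distrib, hS, e2]
    have e4 : (K + 1) * V + K * X = (K + 1) * K := by
      have : k - 1 = K := by omega
      rw [this, hk] at e3
      omega
    rcases Nat.eq_zero_or_pos X with hX0 | hXpos
    · left
      refine ⟨hX0, ?_⟩
      rw [hX0] at e4
      have : (K + 1) * V = (K + 1) * K := by omega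
      have := Nat.eq_of_mul_eq_mul_left (by omega) this
      omega
    · right
      have hdvd : K + 1 ∣ K * X := by
        have h1 : K + 1 ∣ (K + 1) * V + K * X := by rw [e4]; exact Dvd.intro _ rfl
        exact (Nat.dvd_add_right (Dvd.intro _ rfl)).1 h1
      have hcop : Nat.Coprime (K + 1) K := by simp
      have hX1 : K + 1 ∣ X := hcop.dvd_of_dvd_mul_left hdvd
      have hXge : K + 1 ≤ X := Nat.le_of_dvd hXpos hX1
      have hXK : K * (K + 1) ≤ K * X := Nat.mul_le_mul_left K hXge
      have hV0 : V = 0 := by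
        by_contra hne
        have : 1 ≤ V := Nat.one_le_iff_ne_zero.2 hne
        have h5 : (K + 1) * 1 ≤ (K + 1) * V := Nat.mul_le_mul_left (K + 1) this
        have : K * (K + 1) = (K + 1) * K := Nat.mul_comm _ _
        omega
      have hXeq : X = K + 1 := by
        rw [hV0] at e4
        have : K * X = K * (K + 1) := by
          have : K * (K + 1) = (K + 1) * K := Nat.mul_comm _ _
          omega
        exact Nat.eq_of_mul_eq_mul_left hK this
      refine ⟨?_, by omega, hV0⟩
      obtain ⟨i, hi⟩ := hτb.2 ⟨0, by omega⟩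
      have hi' : tab k i (σ i) = 0 := by
        have := congrArg (fun z : Fin (2 * K + 1) => (z : ℕ)) hi
        exact this
      have hnW : ¬ isW k i (σ i) := by
        intro h
        rw [hV, Finset.card_eq_zero] at hV0
        have : i ∈ (Finset.univ.filter (fun i : Fin (2 * K + 1) => isW k i (σ i))) := by
          rw [Finset.mem_filter]; exact ⟨Finset.mem_univ _, h⟩
        rw [hV0] at this
        simp at this
      obtain ⟨h0, h1⟩ := tab_zero (hlt (σ i)) hi' hnW
      have hi0 : i = ⟨0, by omega⟩ := Fin.ext h0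
      rw [hi0] at h1
      exact Fin.ext h1

end Pool.Agent.Results.MP_cd749c_co.OneEntryQuarter
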